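import Mathlib.GroupTheory.PGroup
import Mathlib.GroupTheory.Nilpotent
import Mathlib.GroupTheory.QuotientGroup.Basic
import Mathlib.GroupTheory.Perm.Basic
import Mathlib.GroupTheory.OrderOfElement
import Mathlib.GroupTheory.Sylow
import Mathlib.Dynamics.PeriodicPts.Lemmas
import Mathlib.Tactic.Group

/-! # Affine maps of finite nilpotent groups have a cycle of length the order of the map -/

namespace Pool.Agent.Results.MP_27f3b7_al.AffineCycle

/-- A permutation of a group is affine if it is `x ↦ t * α x` for an element `t` and an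
automorphism `α` of the group. -/
def IsAffine {G : Type} [Group G] (A : Equiv.Perm G) : Prop :=
  ∃ (t : G) (α : MulAut G), ∀ x, A x = t * α x

/-- `A` is affine with linear part `l`. -/
def Aff {G : Type} [Group G] (A : Equiv.Perm G) (l : MulAut G) : Prop :=
  ∀ x y, A (x * y) = A x * l y

section Basic

variable {G : Type} [Group G]

theorem IsAffine.aff {A : Equiv.Perm G} (h : IsAffine A) : ∃ l, Aff A l := by
  obtain ⟨t, α, h⟩ := h
  exact ⟨α, fun x y => by rw [h, h, map_mul, mul_assoc]⟩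

theorem Aff.pow {A : Equiv.Perm G} {l : MulAut G} (h : Aff A l) (k : ℕ) : Aff (A ^ k) (l ^ k) := by
  induction k with
  | zero => intro x y; simp
  | succ k ih =>
    intro x y
    rw [pow_succ', pow_succ', Equiv.Perm.mul_apply, Equiv.Perm.mul_apply, ih, h, MulAut.mul_apply]

/-- A map with the coprimality property acting trivially modulo `N` and on `N` is trivial. -/
theorem eq_one_of_trivial {p m : ℕ} (hG : IsPGroup p G) (hm : m.Coprime p)
    {N : Subgroup G} {s : Equiv.Perm G} {l : MulAut G} (hs : Aff s l) (hsm : s ^ m = 1)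
    (h1 : ∀ z, z⁻¹ * s z ∈ N) (h2 : ∀ n ∈ N, l n = n) : s = 1 := by
  ext z
  set c := z⁻¹ * s z with hc
  have hcN : c ∈ N := h1 z
  have hz : ∀ k : ℕ, (s ^ k) z = z * c ^ k := by
    intro k
    induction k with
    | zero => simp
    | succ k ih =>
      have hsz : s z = z * c := by rw [hc, mul_inv_cancel_left]
      rw [pow_succ', Equiv.Perm.mul_apply, ih, hs, h2 _ (N.pow_mem hcN k), hsz, pow_succ',
        mul_assoc]
  have h3 : c ^ m = 1 := by
    have := hz m
    rw [hsm, Equiv.Perm.one_apply] at this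
    exact (mul_eq_left.mp this.symm)
  obtain ⟨j, hj⟩ := hG c
  have h4 : c = 1 := by
    have h5 : orderOf c ∣ m := orderOf_dvd_of_pow_eq_one h3
    have h6 : orderOf c ∣ p ^ j := orderOf_dvd_of_pow_eq_one hj
    have h7 : Nat.Coprime m (p ^ j) := Nat.Coprime.pow_right j hm
    exact orderOf_eq_one_iff.mp (Nat.eq_one_of_dvd_coprimes h7 h5 h6)
  rw [Equiv.Perm.one_apply]
  have : z⁻¹ * s z = 1 := h4
  exact (inv_mul_eq_one.mp this).symm

/-- Fixed points in cosets of a central subgroup. -/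
theorem exists_fixed {p m : ℕ} (hG : IsPGroup p G) [Finite G] (hp : p.Prime) (hm : m.Coprime p)
    {N : Subgroup G} (hN : N ≤ Subgroup.center G) {s : Equiv.Perm G} {l : MulAut G}
    (hs : Aff s l) (hsm : s ^ m = 1) (hl : ∀ n ∈ N, l n ∈ N) (x : G) (hx : x⁻¹ * s x ∈ N) :
    ∃ n ∈ N, s (x * n) = x * n := by
  have hfact : Fact p.Prime := ⟨hp⟩
  let _ : CommGroup N :=
    { (inferInstance : Group N) with
      mul_comm := fun a b => Subtype.ext (Subgroup.mem_center_iff.mp (hN b.2) a) }
  set c : N := ⟨x⁻¹ * s x, hx⟩ with hc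
  let L : N →* N :=
    { toFun := fun n => ⟨l n, hl n n.2⟩
      map_one' := Subtype.ext (by simp)
      map_mul' := fun a b => Subtype.ext (by simp) }
  let u : ℕ → N := fun k => Nat.rec 1 (fun _ v => c * L v) k
  have hu0 : u 0 = 1 := rfl
  have hus : ∀ k, u (k + 1) = c * L (u k) := fun k => rfl
  have huk : ∀ k, (s ^ k) x = x * (Subtype.val (u k) : G) := by
    intro k
    induction k with
    | zero => simp [hu0]
    | succ k ih =>
      rw [pow_succ', Equiv.Perm.mul_apply, ih, hs, hus]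
      change s x * l (Subtype.val (u k) : G) = x * ((x⁻¹ * s x) * l (Subtype.val (u k) : G))
      group
  have hum : u m = 1 := by
    have h1 := huk m
    rw [hsm, Equiv.Perm.one_apply] at h1
    exact Subtype.ext (mul_eq_left.mp h1.symm)
  let w : N := ∏ k ∈ Finset.range m, u k
  have hw : w = c ^ m * L w := by
    have h1 : ∏ k ∈ Finset.range m, u (k + 1) = ∏ k ∈ Finset.range m, u k := by
      have h2 := Finset.prod_range_succ u m
      have h3 := Finset.prod_range_succ' u m
      rw [h2, hum, hu0, mul_one, mul_one] at h3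
      exact h3.symm
    calc w = ∏ k ∈ Finset.range m, u (k + 1) := h1.symm
      _ = ∏ k ∈ Finset.range m, (c * L (u k)) := Finset.prod_congr rfl fun k _ => hus k
      _ = c ^ m * L w := by
        rw [Finset.prod_mul_distrib, Finset.prod_const, Finset.card_range, map_prod]
  have hcop : Nat.Coprime (Nat.card N) m := by
    have hNp : IsPGroup p N := hG.to_subgroup N
    obtain ⟨j, hj⟩ := IsPGroup.iff_card.mp hNp
    rw [hj]
    exact (Nat.Coprime.pow_right j hm).symm
  obtain ⟨n, hn⟩ := (powCoprime hcop).surjective w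
  rw [powCoprime_apply] at hn
  have hfix : c * L n = n := by
    apply (powCoprime hcop).injective
    rw [powCoprime_apply, powCoprime_apply, mul_pow, ← map_pow, hn, ← hw]
  refine ⟨n, n.2, ?_⟩
  rw [hs]
  have h9 : x * (c * L n).1 = x * n.1 := by rw [hfix]
  rw [← h9]
  change s x * l (n.1) = x * ((x⁻¹ * s x) * l (n.1))
  group

end Basic

section Coprime

/-- The permutation of the quotient induced by an affine permutation. -/
def quotPerm {G : Type} [Group G] (N : Subgroup G) (A : Equiv.Perm G) {l : MulAut G}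
    (hA : Aff A l) (hl : ∀ n, l n ∈ N ↔ n ∈ N) : Equiv.Perm (G ⧸ N) :=
  Quotient.congr A (by
    intro x y
    have h1 : (A x)⁻¹ * A y = l (x⁻¹ * y) := by
      have := hA x (x⁻¹ * y)
      rw [mul_inv_cancel_left] at this
      rw [this, inv_mul_cancel_left]
    change QuotientGroup.leftRel N x y ↔ QuotientGroup.leftRel N (A x) (A y)
    rw [QuotientGroup.leftRel_apply, QuotientGroup.leftRel_apply, h1, hl])

theorem quotPerm_mk {G : Type} [Group G] (N : Subgroup G) (A : Equiv.Perm G) {l : MulAut G}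
    (hA : Aff A l) (hl : ∀ n, l n ∈ N ↔ n ∈ N) (x : G) :
    quotPerm N A hA hl (QuotientGroup.mk x) = QuotientGroup.mk (A x) := rfl

theorem quotPerm_pow_mk {G : Type} [Group G] (N : Subgroup G) (A : Equiv.Perm G) {l : MulAut G}
    (hA : Aff A l) (hl : ∀ n, l n ∈ N ↔ n ∈ N) (k : ℕ) (x : G) :
    (quotPerm N A hA hl ^ k) (QuotientGroup.mk x) = QuotientGroup.mk ((A ^ k) x) := by
  induction k with
  | zero => rfl
  | succ k ih => rw [pow_succ', Equiv.Perm.mul_apply, ih, quotPerm_mk, pow_succ',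
      Equiv.Perm.mul_apply]

/-- **Key statement.**  An affine permutation `β`, of order coprime to `p`, of a finite `p`-group
has a cycle of full length meeting the complement of any given coset of a proper subgroup. -/
theorem coprime_affine (p : ℕ) (hp : p.Prime) (m : ℕ) (hm : m.Coprime p) :
    ∀ (c : ℕ) (G : Type) [Group G] [Finite G], Nat.card G = c → IsPGroup p G →
      ∀ (b : Equiv.Perm G) (l : MulAut G), Aff b l → b ^ m = 1 →
      ∀ (D : Subgroup G), D ≠ ⊤ → ∀ y : G,
        ∃ x, y⁻¹ * x ∉ D ∧ ∀ k : ℕ, (b ^ k) x = x → b ^ k = 1 := by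
  intro c
  induction c using Nat.strong_induction_on with
  | _ c ih =>
  intro G _ _ hc hG b l hb hbm D hD y
  have hfact : Fact p.Prime := ⟨hp⟩
  have hnt : Nontrivial G := by
    by_contra hcon
    rw [not_nontrivial_iff_subsingleton] at hcon
    exact hD (Subsingleton.elim _ _)
  -- a minimal invariant subgroup of the center
  have hex : ∃ N : Subgroup G, Minimal (fun N : Subgroup G => N ≤ Subgroup.center G ∧ N ≠ ⊥ ∧
      ∀ n ∈ N, l n ∈ N) N := by
    have hfin : {N : Subgroup G | N ≤ Subgroup.center G ∧ N ≠ ⊥ ∧ ∀ n ∈ N, l n ∈ N}.Finite :=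
      Set.toFinite _
    have hne : {N : Subgroup G | N ≤ Subgroup.center G ∧ N ≠ ⊥ ∧ ∀ n ∈ N, l n ∈ N}.Nonempty := by
      refine ⟨Subgroup.center G, le_refl _, (hG.bot_lt_center).ne', ?_⟩
      intro n hn
      rw [Subgroup.mem_center_iff] at hn ⊢
      intro g
      have := congrArg l (hn (l.symm g))
      simpa using this
    exact hfin.exists_minimal hne
  obtain ⟨N, ⟨hNc, hN0, hNl⟩, hmin⟩ := hex
  have hirr : ∀ W : Subgroup G, W ≤ N → (∀ n ∈ W, l n ∈ W) → W ≠ ⊥ → W = N := by
    intro W hW hWl hW0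
    exact le_antisymm hW (hmin ⟨hW.trans hNc, hW0, hWl⟩ hW)
  have hNn : N.Normal := ⟨fun n hn g => by
    rw [Subgroup.mem_center_iff.mp (hNc hn) g, mul_inv_cancel_right]; exact hn⟩
  have hlN : N.map l.toMonoidHom = N := by
    have h1 : N.map l.toMonoidHom ≤ N := by
      rintro _ ⟨n, hn, rfl⟩
      exact hNl n hn
    refine Subgroup.eq_of_le_of_card_ge h1 ?_
    rw [Nat.card_congr (N.equivMapOfInjective l.toMonoidHom l.injective).toEquiv]
  have hl : ∀ n, l n ∈ N ↔ n ∈ N := by
    intro n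
    constructor
    · intro h
      rw [← hlN] at h
      obtain ⟨n', hn', h2⟩ := h
      have : n' = n := l.injective h2
      rwa [← this]
    · exact hNl n
  -- the quotient
  let bb : Equiv.Perm (G ⧸ N) := quotPerm N b hb hl
  let lb : MulAut (G ⧸ N) := QuotientGroup.congr N N l hlN
  have hbb : Aff bb lb := by
    intro x y
    obtain ⟨x, rfl⟩ := QuotientGroup.mk_surjective x
    obtain ⟨y, rfl⟩ := QuotientGroup.mk_surjective y
    change (QuotientGroup.mk (b (x * y)) : G ⧸ N) = QuotientGroup.mk (b x * l y)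
    rw [hb]
  have hbbm : bb ^ m = 1 := by
    ext x
    obtain ⟨x, rfl⟩ := QuotientGroup.mk_surjective x
    rw [quotPerm_pow_mk, hbm]
    rfl
  have hcardN : 2 ≤ Nat.card N := by
    have h1 : Nat.card N ≠ 1 := fun h => hN0 (Subgroup.card_eq_one.mp h)
    have h2 : 0 < Nat.card N := Nat.card_pos
    omega
  have hcardQ : Nat.card (G ⧸ N) < c := by
    have h1 := Subgroup.card_eq_card_quotient_mul_card_subgroup N
    rw [hc] at h1
    have h2 : 0 < Nat.card (G ⧸ N) := Nat.card_pos
    rw [h1]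
    nlinarith
  -- a good element modulo `N`
  have hX : ∃ x : G, (N ≤ D → y⁻¹ * x ∉ D) ∧
      ∀ k : ℕ, (bb ^ k) (QuotientGroup.mk x) = QuotientGroup.mk x → bb ^ k = 1 := by
    by_cases hND : N ≤ D
    · obtain ⟨x, hx1, hx2⟩ := ih _ hcardQ (G ⧸ N) rfl (hG.to_quotient N) bb lb hbb hbbm
        (D.map (QuotientGroup.mk' N)) (by
          intro h
          apply hD
          have h1 := congrArg (Subgroup.comap (QuotientGroup.mk' N)) h
          rw [Subgroup.comap_map_eq, QuotientGroup.ker_mk', Subgroup.comap_top,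
            sup_eq_left.mpr hND] at h1
          exact h1) (QuotientGroup.mk y)
      obtain ⟨x, rfl⟩ := QuotientGroup.mk_surjective x
      refine ⟨x, fun _ h => hx1 ?_, hx2⟩
      exact ⟨y⁻¹ * x, h, rfl⟩
    · by_cases htriv : (⊥ : Subgroup (G ⧸ N)) = ⊤
      · refine ⟨1, fun h => absurd h hND, fun k _ => ?_⟩
        ext z
        have h1 : ∀ w : G ⧸ N, w = 1 := by
          intro w
          have : w ∈ (⊥ : Subgroup (G ⧸ N)) := by rw [htriv]; trivial
          exact Subgroup.mem_bot.mp this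
        rw [h1 ((bb ^ k) z), h1 ((1 : Equiv.Perm (G ⧸ N)) z)]
      · obtain ⟨x, -, hx2⟩ := ih _ hcardQ (G ⧸ N) rfl (hG.to_quotient N) bb lb hbb hbbm
          ⊥ htriv 1
        obtain ⟨x, rfl⟩ := QuotientGroup.mk_surjective x
        exact ⟨x, fun h => absurd h hND, hx2⟩
  obtain ⟨x₀, hx₀D, hx₀⟩ := hX
  -- the power acting trivially on the quotient
  set k₀ := orderOf bb with hk₀
  let s : Equiv.Perm G := b ^ k₀
  let ls : MulAut G := l ^ k₀
  have hs : Aff s ls := hb.pow k₀
  have hsm : s ^ m = 1 := by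
    change (b ^ k₀) ^ m = 1
    rw [← pow_mul, mul_comm, pow_mul, hbm, one_pow]
  have hsN : ∀ z, z⁻¹ * s z ∈ N := by
    intro z
    have h1 : (bb ^ k₀) (QuotientGroup.mk z) = QuotientGroup.mk z := by
      rw [hk₀, pow_orderOf_eq_one]
      rfl
    rw [quotPerm_pow_mk] at h1
    exact QuotientGroup.eq.mp h1.symm
  have hlk : ∀ k : ℕ, ∀ n ∈ N, (l ^ k) n ∈ N := by
    intro k
    induction k with
    | zero => intro n hn; simpa using hn
    | succ k ihk =>
      intro n hn
      rw [pow_succ', MulAut.mul_apply]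
      exact hNl _ (ihk n hn)
  obtain ⟨n₀, hn₀, hfix₀⟩ := exists_fixed hG hp hm hNc hs hsm (hlk k₀) x₀ (hsN x₀)
  set x₁ := x₀ * n₀ with hx₁
  have hmk : ∀ n ∈ N, (QuotientGroup.mk (x₁ * n) : G ⧸ N) = QuotientGroup.mk x₀ := by
    intro n hn
    rw [eq_comm, QuotientGroup.eq, hx₁]
    have : x₀⁻¹ * (x₀ * n₀ * n) = n₀ * n := by group
    rw [this]
    exact N.mul_mem hn₀ hn
  -- powers of the linear part fixing a nontrivial element of `N` fix `N` pointwise
  have hfixN : ∀ k : ℕ, ∀ n ∈ N, n ≠ 1 → (l ^ k) n = n → ∀ n' ∈ N, (l ^ k) n' = n' := by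
    intro k n hn hn1 hfix
    let W : Subgroup G :=
      { carrier := {v | v ∈ N ∧ (l ^ k) v = v}
        one_mem' := ⟨N.one_mem, map_one _⟩
        mul_mem' := fun {a b} ha hb => ⟨N.mul_mem ha.1 hb.1, by rw [map_mul, ha.2, hb.2]⟩
        inv_mem' := fun {a} ha => ⟨N.inv_mem ha.1, by rw [map_inv, ha.2]⟩ }
    have hW : W = N := by
      apply hirr W (fun v hv => hv.1)
      · rintro v ⟨hv1, hv2⟩
        refine ⟨hNl v hv1, ?_⟩
        rw [← MulAut.mul_apply, ← pow_succ, pow_succ', MulAut.mul_apply, hv2]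
      · intro h
        apply hn1
        have : n ∈ W := ⟨hn, hfix⟩
        rw [h, Subgroup.mem_bot] at this
        exact this
    intro n' hn'
    rw [← hW] at hn'
    exact hn'.2
  -- the choice of the element
  have hchoice : ∃ n ∈ N, y⁻¹ * (x₁ * n) ∉ D ∧ (n ≠ 1 ∨ ∀ n' ∈ N, ls n' = n') := by
    by_cases hND : N ≤ D
    · obtain ⟨n, hn, hn1⟩ : ∃ n ∈ N, n ≠ 1 := by
        by_contra hcon
        push Not at hcon
        exact hN0 ((Subgroup.eq_bot_iff_forall N).mpr hcon)
      refine ⟨n, hn, ?_, Or.inl hn1⟩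
      intro h
      apply hx₀D hND
      have h1 : y⁻¹ * x₀ = y⁻¹ * (x₁ * n) * (n₀ * n)⁻¹ := by rw [hx₁]; group
      rw [h1]
      exact D.mul_mem h (D.inv_mem (hND (N.mul_mem hn₀ hn)))
    · by_contra hcon
      push Not at hcon
      apply hND
      by_cases htr : ∀ n' ∈ N, ls n' = n'
      · have h1 : y⁻¹ * (x₁ * 1) ∈ D := by
          by_contra h2
          obtain ⟨-, n', hn', h3⟩ := hcon 1 N.one_mem h2
          exact h3 (htr n' hn')
        intro a ha
        have h2 : y⁻¹ * (x₁ * a) ∈ D := by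
          by_contra h2
          obtain ⟨-, n', hn', h3⟩ := hcon a ha h2
          exact h3 (htr n' hn')
        have h3 : a = (y⁻¹ * (x₁ * 1))⁻¹ * (y⁻¹ * (x₁ * a)) := by group
        rw [h3]
        exact D.mul_mem (D.inv_mem h1) h2
      · push Not at htr
        obtain ⟨v, hv, hv2⟩ := htr
        have hv1 : v ≠ 1 := by rintro rfl; exact hv2 (map_one _)
        have hlv1 : ls v ≠ 1 := by
          intro h
          exact hv1 (ls.injective (h.trans (map_one _).symm))
        have hlvN : ls v ∈ N := hlk k₀ v hv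
        have hD' : ∀ n ∈ N, n ≠ 1 → y⁻¹ * (x₁ * n) ∈ D := by
          intro n hn hn1
          by_contra h2
          exact hn1 (hcon n hn h2).1
        intro a ha
        by_cases ha1 : a = 1
        · rw [ha1]; exact D.one_mem
        -- an element of `N` different from `1` and `a⁻¹`
        obtain ⟨w, hw, hw1, hwa⟩ : ∃ w ∈ N, w ≠ 1 ∧ w * a ≠ 1 := by
          by_cases h : v * a = 1
          · refine ⟨ls v, hlvN, hlv1, ?_⟩
            intro h3
            exact hv2 (mul_right_cancel (h3.trans h.symm))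
          · exact ⟨v, hv, hv1, h⟩
        have h3 : a = (y⁻¹ * (x₁ * w))⁻¹ * (y⁻¹ * (x₁ * (w * a))) := by group
        rw [h3]
        exact D.mul_mem (D.inv_mem (hD' w hw hw1)) (hD' _ (N.mul_mem hw ha) hwa)
  obtain ⟨n, hn, hnD, hn1⟩ := hchoice
  refine ⟨x₁ * n, hnD, ?_⟩
  intro k hk
  have h1 : (bb ^ k) (QuotientGroup.mk x₀) = QuotientGroup.mk x₀ := by
    rw [← hmk n hn, quotPerm_pow_mk, hk]
  have h2 : bb ^ k = 1 := hx₀ k h1
  obtain ⟨j, rfl⟩ := orderOf_dvd_of_pow_eq_one h2
  have h3 : b ^ (k₀ * j) = s ^ j := by rw [pow_mul]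
  have h4 : (s ^ j) (x₁ * n) = x₁ * n := by
    change ((b ^ k₀) ^ j) (x₁ * n) = x₁ * n
    rw [← pow_mul]; exact hk
  have hsj : ∀ i : ℕ, (s ^ i) x₁ = x₁ := by
    intro i
    induction i with
    | zero => rfl
    | succ i ihi => rw [pow_succ', Equiv.Perm.mul_apply, ihi]; exact hfix₀
  have h5 : (l ^ (k₀ * j)) n = n := by
    have h6 := hs.pow j x₁ n
    rw [h4, hsj] at h6
    have h7 := mul_left_cancel h6
    rw [pow_mul]
    exact h7.symm
  have h6 : ∀ n' ∈ N, (l ^ (k₀ * j)) n' = n' := by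
    rcases hn1 with h | h
    · exact hfixN _ n hn h h5
    · intro n' hn'
      rw [pow_mul]
      clear h5 h4 h3 h2 h1 hk
      induction j with
      | zero => rfl
      | succ j ihj =>
        rw [pow_succ', MulAut.mul_apply, ihj]
        exact h n' hn'
  change b ^ (k₀ * j) = 1
  refine eq_one_of_trivial hG hm (hb.pow (k₀ * j)) ?_ ?_ h6
  · rw [← pow_mul, mul_comm, pow_mul, hbm, one_pow]
  · intro z
    have h7 : (bb ^ (k₀ * j)) (QuotientGroup.mk z) = QuotientGroup.mk z := by
      rw [pow_mul, hk₀, pow_orderOf_eq_one, one_pow]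
      rfl
    rw [quotPerm_pow_mk] at h7
    exact QuotientGroup.eq.mp h7.symm

end Coprime

/-- Some point is moved by every nontrivial power of `A`. -/
def Full {G : Type} (A : Equiv.Perm G) : Prop := ∃ x, ∀ k : ℕ, (A ^ k) x = x → A ^ k = 1

theorem gcd_fix {G : Type} (A : Equiv.Perm G) {j k : ℕ} {x : G} (hj : (A ^ j) x = x)
    (hk : (A ^ k) x = x) : (A ^ (j.gcd k)) x = x := by
  have h1 : Function.IsPeriodicPt A j x := by
    change A^[j] x = x
    rw [Equiv.Perm.iterate_eq_pow]; exact hj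
  have h2 : Function.IsPeriodicPt A k x := by
    change A^[k] x = x
    rw [Equiv.Perm.iterate_eq_pow]; exact hk
  have h3 : A^[j.gcd k] x = x := h1.gcd h2
  rwa [Equiv.Perm.iterate_eq_pow] at h3

theorem dvd_fix {G : Type} (A : Equiv.Perm G) {j k : ℕ} {x : G} (hj : (A ^ j) x = x)
    (hjk : j ∣ k) : (A ^ k) x = x := by
  obtain ⟨e, rfl⟩ := hjk
  rw [pow_mul]
  induction e with
  | zero => rfl
  | succ e ih => rw [pow_succ', Equiv.Perm.mul_apply, ih, hj]

/-- Affine permutations of finite `p`-groups. -/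
theorem pgroup_affine (p : ℕ) (hp : p.Prime) (G : Type) [Group G] [Finite G] (hG : IsPGroup p G)
    (A : Equiv.Perm G) (l : MulAut G) (hA : Aff A l) : Full A := by
  by_cases hnt : (⊥ : Subgroup G) = ⊤
  · refine ⟨1, fun k _ => ?_⟩
    ext z
    have h1 : ∀ w : G, w = 1 := by
      intro w
      have : w ∈ (⊥ : Subgroup G) := by rw [hnt]; trivial
      exact Subgroup.mem_bot.mp this
    rw [h1 ((A ^ k) z), h1 ((1 : Equiv.Perm G) z)]
  have hN0 : orderOf A ≠ 0 := (orderOf_pos A).ne'
  obtain ⟨a, m, hpm, hN⟩ := Nat.exists_eq_pow_mul_and_not_dvd hN0 p hp.ne_one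
  have hm : m.Coprime p := ((Nat.Prime.coprime_iff_not_dvd hp).mpr hpm).symm
  have hm0 : 0 < m := by
    rcases Nat.eq_zero_or_pos m with h | h
    · rw [h, mul_zero] at hN; exact absurd hN hN0
    · exact h
  have hbm : (A ^ p ^ a) ^ m = 1 := by rw [← pow_mul, ← hN, pow_orderOf_eq_one]
  -- a suitable point
  have hx : ∃ x, (∀ k : ℕ, ((A ^ p ^ a) ^ k) x = x → (A ^ p ^ a) ^ k = 1) ∧
      (a ≠ 0 → (A ^ (p ^ (a - 1) * m)) x ≠ x) := by
    by_cases ha : a = 0
    · obtain ⟨x, -, hx⟩ := coprime_affine p hp m hm _ G rfl hG (A ^ p ^ a) (l ^ p ^ a)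
        (hA.pow _) hbm ⊥ hnt 1
      exact ⟨x, hx, fun h => absurd ha h⟩
    · set d := A ^ (p ^ (a - 1) * m) with hd
      have hd1 : d ≠ 1 := by
        intro h
        have h1 : orderOf A ∣ p ^ (a - 1) * m := orderOf_dvd_of_pow_eq_one h
        rw [hN] at h1
        have h2 : p ^ a ∣ p ^ (a - 1) := Nat.dvd_of_mul_dvd_mul_right hm0 h1
        have h3 := (Nat.pow_dvd_pow_iff_le_right hp.one_lt).mp h2
        omega
      have hdA : Aff d (l ^ (p ^ (a - 1) * m)) := hA.pow _
      by_cases hfix : ∃ y, d y = y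
      · obtain ⟨y, hy⟩ := hfix
        let D : Subgroup G :=
          { carrier := {v | (l ^ (p ^ (a - 1) * m)) v = v}
            one_mem' := map_one _
            mul_mem' := fun {u v} hu hv => by
              change (l ^ (p ^ (a - 1) * m)) (u * v) = u * v
              rw [map_mul, hu, hv]
            inv_mem' := fun {u} hu => by
              change (l ^ (p ^ (a - 1) * m)) u⁻¹ = u⁻¹
              rw [map_inv, hu] }
        have hD : D ≠ ⊤ := by
          intro h
          apply hd1
          ext z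
          have h1 := hdA y (y⁻¹ * z)
          have h2 : (l ^ (p ^ (a - 1) * m)) (y⁻¹ * z) = y⁻¹ * z := by
            have : y⁻¹ * z ∈ D := by rw [h]; trivial
            exact this
          rw [h2, hy, mul_inv_cancel_left] at h1
          exact h1
        obtain ⟨x, hx1, hx2⟩ := coprime_affine p hp m hm _ G rfl hG (A ^ p ^ a) (l ^ p ^ a)
          (hA.pow _) hbm D hD y
        refine ⟨x, hx2, fun _ h => hx1 ?_⟩
        have h1 := hdA y (y⁻¹ * x)
        rw [mul_inv_cancel_left, hy, h] at h1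
        change (l ^ (p ^ (a - 1) * m)) (y⁻¹ * x) = y⁻¹ * x
        rw [eq_inv_mul_iff_mul_eq]
        exact h1.symm
      · obtain ⟨x, -, hx⟩ := coprime_affine p hp m hm _ G rfl hG (A ^ p ^ a) (l ^ p ^ a)
          (hA.pow _) hbm ⊥ hnt 1
        exact ⟨x, hx, fun _ h => hfix ⟨x, h⟩⟩
  obtain ⟨x, hx1, hx2⟩ := hx
  refine ⟨x, fun k hk => ?_⟩
  rw [← orderOf_dvd_iff_pow_eq_one, hN]
  -- `m` divides `k`
  have hmk : m ∣ k := by
    have h1 : ((A ^ p ^ a) ^ k) x = x := by
      rw [← pow_mul]
      exact dvd_fix A hk (Dvd.intro_left _ rfl)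
    have h2 := hx1 k h1
    rw [← pow_mul] at h2
    have h3 := orderOf_dvd_of_pow_eq_one h2
    rw [hN] at h3
    exact Nat.dvd_of_mul_dvd_mul_left (pow_pos hp.pos a) h3
  have hg : (A ^ (k.gcd (p ^ a * m))) x = x := by
    apply gcd_fix A hk
    rw [← hN, pow_orderOf_eq_one]; rfl
  obtain ⟨e, he⟩ : m ∣ k.gcd (p ^ a * m) := Nat.dvd_gcd hmk (Dvd.intro_left _ rfl)
  have hea : e ∣ p ^ a := by
    have h1 : k.gcd (p ^ a * m) ∣ p ^ a * m := Nat.gcd_dvd_right _ _
    rw [he, mul_comm] at h1
    exact Nat.dvd_of_mul_dvd_mul_right hm0 h1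
  obtain ⟨b, hb, rfl⟩ := (Nat.dvd_prime_pow hp).mp hea
  by_cases hba : b = a
  · have h9 : k.gcd (p ^ a * m) = p ^ a * m := by rw [he, hba, mul_comm]
    rw [← h9]
    exact Nat.gcd_dvd_left _ _
  · exfalso
    apply hx2 (by omega)
    refine dvd_fix A hg ?_
    rw [he, mul_comm]
    exact Nat.mul_dvd_mul_right (pow_dvd_pow p (by omega)) m

section Product

set_option linter.unusedSectionVars false

variable {ι : Type} [Fintype ι] [DecidableEq ι] (H : ι → Type) [∀ i, Group (H i)]
  [∀ i, Finite (H i)]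

theorem comp_eq_one (hco : ∀ i j, i ≠ j → Nat.Coprime (Nat.card (H i)) (Nat.card (H j)))
    (l : MulAut (∀ i, H i)) (x : ∀ i, H i) (i : ι) (hx : x i = 1) : (l x) i = 1 := by
  set M := ∏ j ∈ Finset.univ.erase i, Nat.card (H j) with hM
  have h1 : x ^ M = 1 := by
    funext j
    rw [Pi.pow_apply, Pi.one_apply]
    by_cases hj : j = i
    · subst hj
      rw [hx, one_pow]
    · have h2 : Nat.card (H j) ∣ M :=
        Finset.dvd_prod_of_mem _ (Finset.mem_erase.mpr ⟨hj, Finset.mem_univ _⟩)
      obtain ⟨e, he⟩ := h2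
      rw [he, pow_mul, pow_card_eq_one', one_pow]
  have h2 : ((l x) i) ^ M = 1 := by
    have := congrFun (congrArg l h1) i
    rw [map_pow, map_one, Pi.pow_apply, Pi.one_apply] at this
    exact this
  have h3 : ((l x) i) ^ Nat.card (H i) = 1 := pow_card_eq_one'
  have h4 : Nat.Coprime M (Nat.card (H i)) :=
    Nat.Coprime.prod_left fun j hj => hco j i (Finset.ne_of_mem_erase hj)
  have h5 := orderOf_dvd_of_pow_eq_one h2
  have h6 := orderOf_dvd_of_pow_eq_one h3
  exact orderOf_eq_one_iff.mp (Nat.eq_one_of_dvd_coprimes h4 h5 h6)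

theorem product_full (hco : ∀ i j, i ≠ j → Nat.Coprime (Nat.card (H i)) (Nat.card (H j)))
    (hH : ∀ i, ∀ (B : Equiv.Perm (H i)) (m : MulAut (H i)), Aff B m → Full B)
    (A : Equiv.Perm (∀ i, H i)) (l : MulAut (∀ i, H i)) (hA : Aff A l) : Full A := by
  -- components
  have hcomp : ∀ i, ∀ x y : ∀ i, H i, x i = y i → (A x) i = (A y) i := by
    intro i x y hxy
    have h1 := hA x (x⁻¹ * y)
    rw [mul_inv_cancel_left] at h1
    rw [h1, Pi.mul_apply, comp_eq_one H hco l (x⁻¹ * y) i (by simp [hxy]), mul_one]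
  have hsingle : ∀ i (h : H i), (l (Pi.mulSingle i h)) i = 1 → h = 1 := by
    intro i h h1
    have h2 : l (Pi.mulSingle i h) = 1 := by
      funext j
      by_cases hj : j = i
      · subst hj; exact h1
      · exact comp_eq_one H hco l _ j (Pi.mulSingle_eq_of_ne hj h)
    have h3 : (Pi.mulSingle i h : ∀ i, H i) = 1 := by
      apply l.injective
      rw [h2, map_one]
    have h4 := congrFun h3 i
    rwa [Pi.mulSingle_eq_same] at h4
  let li : ∀ i, H i →* H i := fun i =>
    (Pi.evalMonoidHom H i).comp (l.toMonoidHom.comp (MonoidHom.mulSingle H i))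
  have hli : ∀ i, Function.Bijective (li i) := by
    intro i
    apply Finite.injective_iff_bijective.mp
    rw [injective_iff_map_eq_one]
    intro h hh
    exact hsingle i h hh
  let Li : ∀ i, MulAut (H i) := fun i => MulEquiv.ofBijective (li i) (hli i)
  have hLi : ∀ i h, Li i h = (l (Pi.mulSingle i h)) i := fun i h => rfl
  let Ai : ∀ i, H i → H i := fun i h => (A (Pi.mulSingle i h)) i
  have hAff : ∀ i, ∀ h h' : H i, Ai i (h * h') = Ai i h * Li i h' := by
    intro i h h'
    change (A (Pi.mulSingle i (h * h'))) i = (A (Pi.mulSingle i h)) i * (l (Pi.mulSingle i h')) i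
    rw [Pi.mulSingle_mul, hA, Pi.mul_apply]
  have hAi : ∀ i, Function.Bijective (Ai i) := by
    intro i
    apply Finite.injective_iff_bijective.mp
    intro h h' hh
    have h1 := hAff i h (h⁻¹ * h')
    rw [mul_inv_cancel_left, ← hh, eq_comm, mul_eq_left] at h1
    have h2 := (Li i).injective (h1.trans (map_one _).symm)
    exact inv_mul_eq_one.mp h2
  let Pi' : ∀ i, Equiv.Perm (H i) := fun i => Equiv.ofBijective (Ai i) (hAi i)
  have hPi : ∀ i (x : ∀ i, H i), (A x) i = Pi' i (x i) := by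
    intro i x
    exact hcomp i x _ (by rw [Pi.mulSingle_eq_same])
  have hPow : ∀ i (k : ℕ) (x : ∀ i, H i), ((A ^ k) x) i = (Pi' i ^ k) (x i) := by
    intro i k x
    induction k with
    | zero => rfl
    | succ k ih =>
      rw [pow_succ', Equiv.Perm.mul_apply, hPi, ih, pow_succ', Equiv.Perm.mul_apply]
  have hfull : ∀ i, Full (Pi' i) := fun i => hH i _ (Li i) (hAff i)
  choose x hx using hfull
  refine ⟨x, fun k hk => ?_⟩
  have h1 : ∀ i, Pi' i ^ k = 1 := by
    intro i
    apply hx i k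
    rw [← hPow i k x, hk]
  apply Equiv.ext
  intro z
  funext i
  rw [hPow, h1]
  rfl

end Product

/-- Affine permutations of finite nilpotent groups. -/
theorem nilpotent_full (G : Type) [Group G] [Finite G] [Group.IsNilpotent G] (A : Equiv.Perm G)
    (l : MulAut G) (hA : Aff A l) : Full A := by
  classical
  have h := (Group.isNilpotent_of_finite_tfae (G := G)).out 0 4 rfl rfl
  obtain ⟨e⟩ := h.mp inferInstance
  let H : (Nat.card G).primeFactors → Type := fun p => ∀ P : Sylow p G, (P : Subgroup G)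
  have hpr : ∀ p : (Nat.card G).primeFactors, (p : ℕ).Prime :=
    fun p => Nat.prime_of_mem_primeFactors p.2
  have hPG : ∀ p : (Nat.card G).primeFactors, IsPGroup p (H p) := by
    intro p x
    have := Fintype.ofFinite (Sylow (p : ℕ) G)
    choose k hk using fun P : Sylow (p : ℕ) G => P.isPGroup' (x P)
    refine ⟨∑ P, k P, ?_⟩
    funext P
    rw [Pi.pow_apply, Pi.one_apply]
    have h1 : ∑ P, k P = k P + (∑ P, k P - k P) := by
      have := Finset.single_le_sum (f := k) (fun _ _ => Nat.zero_le _) (Finset.mem_univ P)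
      omega
    rw [h1, pow_add, pow_mul, hk, one_pow]
  have hfin : ∀ p, Finite (H p) := fun p => inferInstance
  have hco : ∀ i j, i ≠ j → Nat.Coprime (Nat.card (H i)) (Nat.card (H j)) := by
    intro i j hij
    have : Fact (i : ℕ).Prime := ⟨hpr i⟩
    have : Fact (j : ℕ).Prime := ⟨hpr j⟩
    obtain ⟨a, ha⟩ := IsPGroup.iff_card.mp (hPG i)
    obtain ⟨b, hb⟩ := IsPGroup.iff_card.mp (hPG j)
    rw [ha, hb]
    exact Nat.Coprime.pow _ _ ((Nat.coprime_primes (hpr i) (hpr j)).mpr
      (fun h => hij (Subtype.ext h)))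
  let A' : Equiv.Perm (∀ p, H p) := (e.toEquiv.trans A).trans e.symm.toEquiv
  let l' : MulAut (∀ p, H p) := (e.trans l).trans e.symm
  have hA' : Aff A' l' := by
    intro x y
    change e.symm (A (e (x * y))) = e.symm (A (e x)) * e.symm (l (e y))
    rw [map_mul, hA, map_mul]
  obtain ⟨x, hx⟩ := product_full H hco
    (fun i B m hB => pgroup_affine i (hpr i) (H i) (hPG i) B m hB) A' l' hA'
  have hpow : ∀ (k : ℕ) z, (A' ^ k) z = e.symm ((A ^ k) (e z)) := by
    intro k z
    induction k with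
    | zero => simp
    | succ k ih =>
      rw [pow_succ', Equiv.Perm.mul_apply, ih, pow_succ', Equiv.Perm.mul_apply]
      change e.symm (A (e (e.symm ((A ^ k) (e z))))) = _
      rw [MulEquiv.apply_symm_apply]
  refine ⟨e x, fun k hk => ?_⟩
  have h1 : A' ^ k = 1 := by
    apply hx k
    rw [hpow, hk, MulEquiv.symm_apply_apply]
  ext z
  have h2 := hpow k (e.symm z)
  rw [h1, Equiv.Perm.one_apply, MulEquiv.apply_symm_apply] at h2
  exact (e.symm.injective h2).symm

/-- **Main theorem.**  Let `A` be an affine map of a finite nilpotent group `G`.  Then some point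
`x` of `G` lies on a cycle of `A` whose length is the order of `A`. -/
theorem result (G : Type) [Group G] [Finite G] [Group.IsNilpotent G] (A : Equiv.Perm G)
    (hA : IsAffine A) : ∃ x : G, Function.minimalPeriod A x = orderOf A := by
  obtain ⟨l, hl⟩ := hA.aff
  obtain ⟨x, hx⟩ := nilpotent_full G A l hl
  refine ⟨x, Nat.dvd_antisymm ?_ ?_⟩
  · apply Function.IsPeriodicPt.minimalPeriod_dvd
    change A^[orderOf A] x = x
    rw [Equiv.Perm.iterate_eq_pow, pow_orderOf_eq_one]
    rfl
  · apply orderOf_dvd_of_pow_eq_one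
    apply hx
    rw [← Equiv.Perm.iterate_eq_pow]
    exact Function.iterate_minimalPeriod

end Pool.Agent.Results.MP_27f3b7_al.AffineCycle
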